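import Mathlib

namespace Pool.Agent.Lib.MP_82f784_co

/-- `D` is a dominating set of `G`: every vertex outside `D` has a neighbour in `D`. -/
def IsDom {V : Type} (G : SimpleGraph V) (D : Set V) : Prop :=
  ∀ v, v ∉ D → ∃ u ∈ D, G.Adj v u

/-- `S` is a secure dominating set of `G`: it is dominating, and each vertex `v` outside `S` has
a neighbour `u ∈ S` such that `(S \ {u}) ∪ {v}` is dominating. -/
def IsSecDom {V : Type} (G : SimpleGraph V) (S : Set V) : Prop :=
  IsDom G S ∧ ∀ v, v ∉ S → ∃ u ∈ S, G.Adj v u ∧ IsDom G ((S \ {u}) ∪ {v})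

/-- The secure domination number: the least size of a (finite) secure dominating set. -/
noncomputable def secDomNum {V : Type} (G : SimpleGraph V) : ℕ :=
  sInf {k | ∃ S : Finset V, IsSecDom G (S : Set V) ∧ S.card = k}

end Pool.Agent.Lib.MP_82f784_co
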