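import Mathlib
import Pool.Agent.Lib.MP_82f784_co.Defs

namespace Pool.Agent.Lib.MP_82f784_co

/-- bit mask of the nonzero cubes modulo 127 -/
def cubeMask : ℕ := 144390480366845522447407333004847678774

def nb (x : ℕ) : ℕ := ((cubeMask <<< x) ||| (cubeMask >>> (127 - x))) % 2 ^ 127

def okB (v u T : ℕ) : Bool := (nb v).testBit u || (nb v &&& T != 0)

def chk (a b c d : ℕ) : Bool :=
  (nb a &&& nb b &&& nb c &&& nb d != 0) ||
  (List.range 127).any fun v => okB v a (nb b &&& nb c &&& nb d) && okB v b (nb a &&& nb c &&& nb d)
    && okB v c (nb a &&& nb b &&& nb d) && okB v d (nb a &&& nb b &&& nb c)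

def chkK (a b c d : ℕ) : Bool :=
  !((nb a).testBit b && (nb a).testBit c && (nb b).testBit c && (nb a).testBit d &&
    (nb b).testBit d && (nb c).testBit d)

def chkAll (b : ℕ) : Bool :=
  (List.range 127).all fun c => (List.range 127).all fun d => chk 0 b c d && chkK 0 b c d

theorem chkAll0 : chkAll 0 = true := by decide +kernel
theorem chkAll1 : chkAll 1 = true := by decide +kernel
theorem chkAll3 : chkAll 3 = true := by decide +kernel
theorem chkAll9 : chkAll 9 = true := by decide +kernel

theorem nb_spec0 : ((List.range 127).all fun x => (List.range 127).all fun y =>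
    (nb x).testBit y == ((x + 127 - y) ^ 42 % 127 == 1)) = true := by decide +kernel

end Pool.Agent.Lib.MP_82f784_co
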