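import Mathlib
import Pool.Agent.Lib.MP_82f784_co.Defs
import Pool.Agent.Lib.MP_82f784_co.Counter

namespace Pool.Agent.Lib.MP_82f784_co

instance fact127 : Fact (Nat.Prime 127) := ⟨by norm_num⟩

/-- `x - y` is a nonzero cube modulo 127 -/
def HH (x y : ZMod 127) : Prop := (x - y) ^ 42 = 1

theorem HH.symm {x y : ZMod 127} (h : HH x y) : HH y x := by
  unfold HH at *
  rw [← neg_sub, Even.neg_pow (by decide), h]

theorem HH.irrefl (x : ZMod 127) : ¬ HH x x := by
  unfold HH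
  simp

theorem nb_lt {x w : ℕ} (h : (nb x).testBit w = true) : w < 127 := by
  by_contra hc
  have h1 : nb x < 2 ^ w :=
    lt_of_lt_of_le (Nat.mod_lt _ (by positivity)) (Nat.pow_le_pow_right (by norm_num) (by omega))
  rw [Nat.testBit_eq_false_of_lt h1] at h
  exact absurd h (by simp)

theorem nb_spec {x y : ℕ} (hx : x < 127) (hy : y < 127) :
    (nb x).testBit y = true ↔ HH (x : ZMod 127) (y : ZMod 127) := by
  have h := nb_spec0
  simp only [List.all_eq_true, List.mem_range, beq_iff_eq] at h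
  rw [h x hx y hy, beq_iff_eq]
  unfold HH
  have e : ((x : ZMod 127) - y) = ((x + 127 - y : ℕ) : ZMod 127) := by
    rw [Nat.cast_sub (by omega), Nat.cast_add]
    have : ((127 : ℕ) : ZMod 127) = 0 := by decide
    rw [this, add_zero]
  rw [e, ← Nat.cast_pow, ← Nat.cast_one (R := ZMod 127), ZMod.natCast_eq_natCast_iff']

theorem exists_bit {n : ℕ} (h : n ≠ 0) : ∃ w, n.testBit w = true := by
  by_contra hc
  push Not at hc
  exact h (Nat.eq_of_testBit_eq (by simpa using hc))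

def okP (v u b c d : ZMod 127) : Prop := HH v u ∨ ∃ w, HH w v ∧ HH w b ∧ HH w c ∧ HH w d

def PP (a b c d : ZMod 127) : Prop :=
  (∃ v, okP v a b c d ∧ okP v b a c d ∧ okP v c a b d ∧ okP v d a b c) ∧
    ¬ (HH a b ∧ HH a c ∧ HH b c ∧ HH a d ∧ HH b d ∧ HH c d)

theorem okP_of {v u b c d : ℕ} (hv : v < 127) (hu : u < 127) (hb : b < 127) (hc : c < 127)
    (hd : d < 127) (h : okB v u (nb b &&& nb c &&& nb d) = true) :
    okP (v : ZMod 127) u b c d := by
  unfold okB at h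
  rw [Bool.or_eq_true] at h
  rcases h with h | h
  · exact Or.inl ((nb_spec hv hu).1 h)
  · obtain ⟨w, hw⟩ := exists_bit (by simpa using h : nb v &&& (nb b &&& nb c &&& nb d) ≠ 0)
    simp only [Nat.testBit_and, Bool.and_eq_true] at hw
    have hw' := nb_lt hw.1
    exact Or.inr ⟨w, ((nb_spec hv hw').1 hw.1).symm, ((nb_spec hb hw').1 hw.2.1.1).symm,
      ((nb_spec hc hw').1 hw.2.1.2).symm, ((nb_spec hd hw').1 hw.2.2).symm⟩

theorem PP_of {a b c d : ℕ} (ha : a < 127) (hb : b < 127) (hc : c < 127) (hd : d < 127)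
    (h : chk a b c d = true) (h' : chkK a b c d = true) : PP (a : ZMod 127) b c d := by
  constructor
  · unfold chk at h
    rw [Bool.or_eq_true] at h
    rcases h with h | h
    · obtain ⟨w, hw⟩ := exists_bit (by simpa using h : nb a &&& nb b &&& nb c &&& nb d ≠ 0)
      simp only [Nat.testBit_and, Bool.and_eq_true] at hw
      have hw' := nb_lt hw.2
      exact ⟨w, Or.inl ((nb_spec ha hw').1 hw.1.1.1).symm, Or.inl ((nb_spec hb hw').1 hw.1.1.2).symm,
        Or.inl ((nb_spec hc hw').1 hw.1.2).symm, Or.inl ((nb_spec hd hw').1 hw.2).symm⟩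
    · simp only [List.any_eq_true, List.mem_range, Bool.and_eq_true] at h
      obtain ⟨v, hv, ⟨⟨h1, h2⟩, h3⟩, h4⟩ := h
      exact ⟨v, okP_of hv ha hb hc hd h1, okP_of hv hb ha hc hd h2, okP_of hv hc ha hb hd h3,
        okP_of hv hd ha hb hc h4⟩
  · rintro ⟨h1, h2, h3, h4, h5, h6⟩
    unfold chkK at h'
    rw [(nb_spec ha hb).2 h1, (nb_spec ha hc).2 h2, (nb_spec hb hc).2 h3, (nb_spec ha hd).2 h4,
      (nb_spec hb hd).2 h5, (nb_spec hc hd).2 h6] at h'
    exact absurd h' (by decide)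

theorem PP_base {b : ℕ} (hb : b < 127) (h : chkAll b = true) (c d : ZMod 127) :
    PP 0 (b : ZMod 127) c d := by
  unfold chkAll at h
  simp only [List.all_eq_true, List.mem_range, Bool.and_eq_true] at h
  have := h c.val (ZMod.val_lt c) d.val (ZMod.val_lt d)
  have h2 := PP_of (by norm_num) hb (ZMod.val_lt c) (ZMod.val_lt d) this.1 this.2
  simpa using h2

theorem mult_exists0 : ((List.range 127).all fun y => (List.range 127).any fun m =>
    (m ^ 42 % 127 == 1) && (m * y % 127 == 0 || m * y % 127 == 1 || m * y % 127 == 3 ||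
      m * y % 127 == 9)) = true := by decide +kernel

theorem mult_exists (y : ZMod 127) : ∃ m : ZMod 127, m ^ 42 = 1 ∧
    (m * y = ((0 : ℕ) : ZMod 127) ∨ m * y = ((1 : ℕ) : ZMod 127) ∨ m * y = ((3 : ℕ) : ZMod 127) ∨
      m * y = ((9 : ℕ) : ZMod 127)) := by
  have h := mult_exists0
  simp only [List.all_eq_true, List.any_eq_true, List.mem_range, Bool.and_eq_true,
    Bool.or_eq_true, beq_iff_eq] at h
  obtain ⟨m, -, h1, h2⟩ := h y.val (ZMod.val_lt y)
  have e : (m : ZMod 127) * y = ((m * y.val % 127 : ℕ) : ZMod 127) := by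
    rw [ZMod.natCast_mod]
    simp
  refine ⟨m, ?_, ?_⟩
  · rw [← Nat.cast_pow, ← ZMod.natCast_mod, h1, Nat.cast_one]
  · rw [e]
    rcases h2 with ((h2 | h2) | h2) | h2 <;> rw [h2] <;> simp

theorem PP_all (a b c d : ZMod 127) : PP a b c d := by
  obtain ⟨m, hm, hb⟩ := mult_exists (b - a)
  have hm0 : m ≠ 0 := by
    rintro rfl
    simp at hm
  have hφ : ∀ x y, HH (m * (x - a)) (m * (y - a)) ↔ HH x y := by
    intro x y
    unfold HH
    rw [show m * (x - a) - m * (y - a) = m * (x - y) by ring, mul_pow, hm, one_mul]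
  have hs : ∀ z : ZMod 127, ∃ x, z = m * (x - a) := fun z => ⟨m⁻¹ * z + a, by field_simp; ring⟩
  have hP : PP (m * (a - a)) (m * (b - a)) (m * (c - a)) (m * (d - a)) := by
    rw [sub_self, mul_zero]
    rcases hb with hb | hb | hb | hb <;> rw [hb]
    · exact PP_base (by norm_num) chkAll0 _ _
    · exact PP_base (by norm_num) chkAll1 _ _
    · exact PP_base (by norm_num) chkAll3 _ _
    · exact PP_base (by norm_num) chkAll9 _ _
  have hok : ∀ v u x y z, okP (m * (v - a)) (m * (u - a)) (m * (x - a)) (m * (y - a))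
      (m * (z - a)) → okP v u x y z := by
    intro v u x y z h
    rcases h with h | ⟨w, h⟩
    · exact Or.inl ((hφ _ _).1 h)
    · obtain ⟨w, rfl⟩ := hs w
      simp only [hφ] at h
      exact Or.inr ⟨w, h⟩
  obtain ⟨⟨v, h1, h2, h3, h4⟩, h5⟩ := hP
  obtain ⟨v, rfl⟩ := hs v
  simp only [hφ] at h5
  exact ⟨⟨v, hok _ _ _ _ _ h1, hok _ _ _ _ _ h2, hok _ _ _ _ _ h3, hok _ _ _ _ _ h4⟩, h5⟩

/-- the complement of the cubic residue graph on 127 vertices -/
def G127 : SimpleGraph (ZMod 127) where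
  Adj x y := x ≠ y ∧ ¬ HH x y
  symm := ⟨fun _ _ h => ⟨h.1.symm, fun h' => h.2 h'.symm⟩⟩
  loopless := ⟨fun _ h => h.1 rfl⟩

theorem HH_of_not_adj {x y : ZMod 127} (h : x ≠ y) (h' : ¬ G127.Adj x y) : HH x y := by
  by_contra hc
  exact h' ⟨h, hc⟩

theorem no_ind4 (a b c d : ZMod 127) (hab : a ≠ b) (hac : a ≠ c) (had : a ≠ d) (hbc : b ≠ c)
    (hbd : b ≠ d) (hcd : c ≠ d) (ab : ¬ G127.Adj a b) (ac : ¬ G127.Adj a c) (ad : ¬ G127.Adj a d)
    (bc : ¬ G127.Adj b c) (bd : ¬ G127.Adj b d) (cd : ¬ G127.Adj c d) : False :=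
  (PP_all a b c d).2 ⟨HH_of_not_adj hab ab, HH_of_not_adj hac ac, HH_of_not_adj hbc bc,
    HH_of_not_adj had ad, HH_of_not_adj hbd bd, HH_of_not_adj hcd cd⟩

theorem indepNum_le : G127.indepNum ≤ 3 := by
  obtain ⟨s, hs⟩ := G127.exists_isNIndepSet_indepNum
  by_contra hc
  obtain ⟨t, hts, ht⟩ := Finset.exists_subset_card_eq (s := s) (n := 4) (by rw [hs.2]; omega)
  obtain ⟨a, b, c, d, hab, hac, had, hbc, hbd, hcd, rfl⟩ := Finset.card_eq_four.1 ht
  have hi := hs.1
  exact no_ind4 a b c d hab hac had hbc hbd hcd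
    (hi (hts (by simp)) (hts (by simp)) hab) (hi (hts (by simp)) (hts (by simp)) hac)
    (hi (hts (by simp)) (hts (by simp)) had) (hi (hts (by simp)) (hts (by simp)) hbc)
    (hi (hts (by simp)) (hts (by simp)) hbd) (hi (hts (by simp)) (hts (by simp)) hcd)

theorem free127 {t : ℕ} (ht : 7 ≤ t) : ¬ (SimpleGraph.pathGraph t).IsIndContained G127 := by
  rintro ⟨f⟩
  have hne : ∀ i j : Fin t, i.val ≠ j.val → f i ≠ f j := fun i j h he =>
    h (congrArg Fin.val (f.injective he))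
  have hna : ∀ i j : Fin t, i.val + 1 ≠ j.val → j.val + 1 ≠ i.val → ¬ G127.Adj (f i) (f j) := by
    intro i j h1 h2 h
    rw [f.map_adj_iff, SimpleGraph.pathGraph_adj] at h
    omega
  exact no_ind4 (f ⟨0, by omega⟩) (f ⟨2, by omega⟩) (f ⟨4, by omega⟩) (f ⟨6, by omega⟩)
    (hne _ _ (by simp)) (hne _ _ (by simp)) (hne _ _ (by simp)) (hne _ _ (by simp))
    (hne _ _ (by simp)) (hne _ _ (by simp)) (hna _ _ (by simp) (by simp))
    (hna _ _ (by simp) (by simp)) (hna _ _ (by simp) (by simp)) (hna _ _ (by simp) (by simp))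
    (hna _ _ (by simp) (by simp)) (hna _ _ (by simp) (by simp))

theorem not_dom {D : Set (ZMod 127)} {w : ZMod 127} (h : ∀ x ∈ D, HH w x) : ¬ IsDom G127 D := by
  intro hD
  obtain ⟨u, hu, hwu⟩ := hD w (fun hw => HH.irrefl w (h w hw))
  exact hwu.2 (h u hu)

theorem not_sec {S : Set (ZMod 127)} {a b c d : ZMod 127}
    (hS : ∀ x ∈ S, x = a ∨ x = b ∨ x = c ∨ x = d) : ¬ IsSecDom G127 S := by
  rintro ⟨hD, hsec⟩
  obtain ⟨v, h1, h2, h3, h4⟩ := (PP_all a b c d).1
  have key : ∀ u ∈ S, HH v u ∨ ∃ w, HH w v ∧ ∀ x ∈ S, x ≠ u → HH w x := by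
    intro u hu
    rcases hS u hu with rfl | rfl | rfl | rfl
    · refine h1.imp id fun ⟨w, hw⟩ => ⟨w, hw.1, fun x hx hxu => ?_⟩
      rcases hS x hx with rfl | rfl | rfl | rfl <;> tauto
    · refine h2.imp id fun ⟨w, hw⟩ => ⟨w, hw.1, fun x hx hxu => ?_⟩
      rcases hS x hx with rfl | rfl | rfl | rfl <;> tauto
    · refine h3.imp id fun ⟨w, hw⟩ => ⟨w, hw.1, fun x hx hxu => ?_⟩
      rcases hS x hx with rfl | rfl | rfl | rfl <;> tauto
    · refine h4.imp id fun ⟨w, hw⟩ => ⟨w, hw.1, fun x hx hxu => ?_⟩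
      rcases hS x hx with rfl | rfl | rfl | rfl <;> tauto
  by_cases hv : v ∈ S
  · rcases key v hv with h | ⟨w, hw, hw'⟩
    · exact HH.irrefl v h
    · refine not_dom (w := w) (fun x hx => ?_) hD
      by_cases hxv : x = v
      · rw [hxv]
        exact hw
      · exact hw' x hx hxv
  · obtain ⟨u, hu, hvu, hd⟩ := hsec v hv
    rcases key u hu with h | ⟨w, hw, hw'⟩
    · exact hvu.2 h
    · refine not_dom (w := w) (fun x hx => ?_) hd
      rcases hx with hx | hx
      · exact hw' x hx.1 hx.2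
      · rw [hx]
        exact hw

theorem five_le : 5 ≤ secDomNum G127 := by
  have hne : {k | ∃ S : Finset (ZMod 127), IsSecDom G127 (S : Set (ZMod 127)) ∧ S.card = k}.Nonempty :=
    ⟨_, Finset.univ, ⟨fun v hv => absurd (by simp) hv, fun v hv => absurd (by simp) hv⟩, rfl⟩
  obtain ⟨S, hS, hc⟩ := Nat.sInf_mem hne
  by_contra hlt
  have h4 : S.card ≤ 4 := by
    unfold secDomNum at hlt
    omega
  obtain ⟨T, hST, -, hT⟩ := Finset.exists_subsuperset_card_eq (Finset.subset_univ S) h4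
    (by rw [Finset.card_univ, ZMod.card]; norm_num)
  obtain ⟨a, b, c, d, -, -, -, -, -, -, rfl⟩ := Finset.card_eq_four.1 hT
  refine not_sec (a := a) (b := b) (c := c) (d := d) (fun x hx => ?_) hS
  simpa using hST hx

end Pool.Agent.Lib.MP_82f784_co
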