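import Mathlib
import Pool.Agent.Lib.MP_82f784_co.Defs

namespace Pool.Agent.Lib.MP_82f784_co

open Finset

variable {V : Type} {G : SimpleGraph V}

/-- explicit form of having no induced path on six vertices -/
def NoP6 (G : SimpleGraph V) : Prop :=
  ∀ a b c d e f : V, G.Adj a b → G.Adj b c → G.Adj c d → G.Adj d e → G.Adj e f →
    ¬G.Adj a c → ¬G.Adj a d → ¬G.Adj a e → ¬G.Adj a f → ¬G.Adj b d → ¬G.Adj b e → ¬G.Adj b f →
    ¬G.Adj c e → ¬G.Adj c f → ¬G.Adj d f → False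

theorem noP6_of (h : ¬ (SimpleGraph.pathGraph 6).IsIndContained G) : NoP6 G := by
  intro a b c d e f ab bc cd de ef ac ad ae af bd be bf ce cf df
  apply h
  have ba := ab.symm
  have cb := bc.symm
  have dc := cd.symm
  have ed := de.symm
  have fe := ef.symm
  have ca : ¬ G.Adj c a := fun h => ac h.symm
  have da : ¬ G.Adj d a := fun h => ad h.symm
  have ea : ¬ G.Adj e a := fun h => ae h.symm
  have fa : ¬ G.Adj f a := fun h => af h.symm
  have db : ¬ G.Adj d b := fun h => bd h.symm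
  have eb : ¬ G.Adj e b := fun h => be h.symm
  have fb : ¬ G.Adj f b := fun h => bf h.symm
  have ec : ¬ G.Adj e c := fun h => ce h.symm
  have fc : ¬ G.Adj f c := fun h => cf h.symm
  have fd : ¬ G.Adj f d := fun h => df h.symm
  have key : ∀ i j : Fin 6, G.Adj (![a, b, c, d, e, f] i) (![a, b, c, d, e, f] j) ↔
      (SimpleGraph.pathGraph 6).Adj i j := by
    intro i j
    rw [SimpleGraph.pathGraph_adj]
    fin_cases i <;> fin_cases j <;> simp [*]
  refine ⟨⟨⟨![a, b, c, d, e, f], ?_⟩, fun {i j} => key i j⟩⟩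
  intro i j hij
  have h2 : ∀ k : Fin 6, (SimpleGraph.pathGraph 6).Adj i k ↔ (SimpleGraph.pathGraph 6).Adj j k := by
    intro k
    rw [← key, ← key, hij]
  simp only [SimpleGraph.pathGraph_adj] at h2
  clear hij
  revert i j
  decide

/-- independence of a finset, in explicit form -/
def Ind (G : SimpleGraph V) (I : Finset V) : Prop := ∀ x ∈ I, ∀ y ∈ I, ¬G.Adj x y

/-- maximum independent set -/
def MaxInd (G : SimpleGraph V) (I : Finset V) : Prop :=
  Ind G I ∧ ∀ J : Finset V, Ind G J → J.card ≤ I.card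

/-- `x` is an external private neighbour of `u` with respect to `I` -/
def Priv (G : SimpleGraph V) (I : Finset V) (u x : V) : Prop :=
  x ∉ I ∧ G.Adj x u ∧ ∀ w ∈ I, G.Adj x w → w = u

/-- `v` is not (obviously) defended by `I ∪ Z` -/
def Bad (G : SimpleGraph V) (I Z : Finset V) (v : V) : Prop :=
  v ∉ I ∧ v ∉ Z ∧ (∀ z ∈ Z, ¬G.Adj v z) ∧
    ∀ u ∈ I, G.Adj v u → ∃ x, Priv G I u x ∧ x ≠ v ∧ ¬G.Adj x v ∧ x ∉ Z ∧ ∀ z ∈ Z, ¬G.Adj x z

theorem Bad.mono {I Z Z' : Finset V} {v : V} (h : Bad G I Z' v) (hZ : Z ⊆ Z') : Bad G I Z v := by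
  obtain ⟨h1, h2, h3, h4⟩ := h
  refine ⟨h1, fun h => h2 (hZ h), fun z hz => h3 z (hZ hz), fun u hu huv => ?_⟩
  obtain ⟨x, hx1, hx2, hx3, hx4, hx5⟩ := h4 u hu huv
  exact ⟨x, hx1, hx2, hx3, fun h => hx4 (hZ h), fun z hz => hx5 z (hZ hz)⟩

section
variable [DecidableEq V]

theorem exch_ind {I A B : Finset V} (hI : Ind G I) (hB : Ind G B)
    (hN : ∀ b ∈ B, ∀ w ∈ I, G.Adj b w → w ∈ A) : Ind G ((I \ A) ∪ B) := by
  intro x hx y hy hxy
  rw [mem_union, mem_sdiff] at hx hy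
  rcases hx with hx | hx <;> rcases hy with hy | hy
  · exact hI x hx.1 y hy.1 hxy
  · exact hx.2 (hN y hy x hx.1 hxy.symm)
  · exact hy.2 (hN x hx y hy.1 hxy)
  · exact hB x hx y hy hxy

theorem exch_card {I A B : Finset V} (hA : A ⊆ I) (hd : ∀ b ∈ B, b ∉ I) :
    ((I \ A) ∪ B).card + A.card = I.card + B.card := by
  rw [card_union_of_disjoint, card_sdiff_of_subset hA]
  · have := card_le_card hA
    omega
  · rw [disjoint_left]
    intro x hx hxB
    exact hd x hxB (mem_sdiff.1 hx).1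

theorem exch_le {I A B : Finset V} (hI : MaxInd G I) (hA : A ⊆ I) (hd : ∀ b ∈ B, b ∉ I)
    (hB : Ind G B) (hN : ∀ b ∈ B, ∀ w ∈ I, G.Adj b w → w ∈ A) : B.card ≤ A.card := by
  have h1 := hI.2 _ (exch_ind hI.1 hB hN)
  have h2 := exch_card hA hd
  omega

theorem MaxInd.dom {I : Finset V} (hI : MaxInd G I) {v : V} (hv : v ∉ I) : ∃ u ∈ I, G.Adj v u := by
  by_contra hc
  push Not at hc
  have := exch_le (A := ∅) (B := {v}) hI (empty_subset _) (by simpa using hv)
    (by intro x hx y hy; rw [mem_singleton] at hx hy; subst hx; subst hy; exact G.irrefl)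
    (by intro b hb w hw hbw; rw [mem_singleton] at hb; subst hb; exact absurd hbw (hc w hw))
  simp at this

/-- two distinct private neighbours of the same vertex are adjacent -/
theorem priv_adj {I : Finset V} (hI : MaxInd G I) {u x y : V} (hu : u ∈ I) (hx : Priv G I u x)
    (hy : Priv G I u y) (hxy : x ≠ y) : G.Adj x y := by
  by_contra hc
  have := exch_le (A := {u}) (B := {x, y}) hI (by simpa using hu)
    (by
      intro b hb
      simp only [mem_insert, mem_singleton] at hb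
      rcases hb with rfl | rfl
      · exact hx.1
      · exact hy.1)
    (by
      intro a ha b hb hab
      simp only [mem_insert, mem_singleton] at ha hb
      rcases ha with rfl | rfl <;> rcases hb with rfl | rfl
      · exact G.irrefl hab
      · exact hc hab
      · exact hc hab.symm
      · exact G.irrefl hab)
    (by
      intro b hb w hw hbw
      simp only [mem_insert, mem_singleton] at hb ⊢
      rcases hb with rfl | rfl
      · exact hx.2.2 w hw hbw
      · exact hy.2.2 w hw hbw)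
  rw [card_pair hxy, card_singleton] at this
  omega

theorem secure_of_noBad {I Z : Finset V} (hI : MaxInd G I) (hZ : ∀ z ∈ Z, z ∉ I)
    (h : ∀ v, ¬ Bad G I Z v) : IsSecDom G ((I ∪ Z : Finset V) : Set V) := by
  refine ⟨fun v hv => ?_, fun v hv => ?_⟩
  · have hvI : v ∉ I := fun h => hv (by simp [h])
    obtain ⟨u, hu, huv⟩ := hI.dom hvI
    exact ⟨u, by simp [hu], huv⟩
  · have hvI : v ∉ I := fun h => hv (by simp [h])
    have hvZ : v ∉ Z := fun h => hv (by simp [h])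
    by_cases h1 : ∃ z ∈ Z, G.Adj v z
    · obtain ⟨z, hz, hvz⟩ := h1
      refine ⟨z, by simp [hz], hvz, fun y hy => ?_⟩
      have hyI : y ∉ I := by
        intro hyI
        apply hy
        left
        refine ⟨by simp [hyI], ?_⟩
        rintro rfl
        exact hZ _ hz hyI
      obtain ⟨u, hu, hyu⟩ := hI.dom hyI
      refine ⟨u, Or.inl ⟨by simp [hu], ?_⟩, hyu⟩
      rintro rfl
      exact hZ _ hz hu
    · push Not at h1
      have h2 := h v
      unfold Bad at h2
      push Not at h2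
      obtain ⟨u, hu, hvu, h3⟩ := h2 hvI hvZ h1
      refine ⟨u, by simp [hu], hvu, fun y hy => ?_⟩
      have hyv : y ≠ v := by
        rintro rfl
        exact hy (Or.inr rfl)
      by_cases hyu : y = u
      · subst hyu
        exact ⟨v, Or.inr rfl, hvu.symm⟩
      have hyS : y ∉ ((I ∪ Z : Finset V) : Set V) := fun h => hy (Or.inl ⟨h, hyu⟩)
      have hyI : y ∉ I := fun h => hyS (by simp [h])
      have hyZ : y ∉ Z := fun h => hyS (by simp [h])
      by_cases hp : ∃ w ∈ I, G.Adj y w ∧ w ≠ u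
      · obtain ⟨w, hw, hyw, hwu⟩ := hp
        exact ⟨w, Or.inl ⟨by simp [hw], hwu⟩, hyw⟩
      · push Not at hp
        obtain ⟨w, hw, hyw⟩ := hI.dom hyI
        have hwu := hp w hw hyw
        subst hwu
        have hpr : Priv G I w y := ⟨hyI, hyw, hp⟩
        by_cases hyv' : G.Adj y v
        · exact ⟨v, Or.inr rfl, hyv'⟩
        · obtain ⟨z, hz, hyz⟩ := h3 y hpr hyv hyv' hyZ
          refine ⟨z, Or.inl ⟨by simp [hz], ?_⟩, hyz⟩
          rintro rfl
          exact hZ _ hz hw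

end

section
variable [DecidableEq V] [DecidableRel G.Adj]

/-- neighbours of `v` in `I` -/
def nbI (G : SimpleGraph V) [DecidableRel G.Adj] (I : Finset V) (v : V) : Finset V :=
  I.filter (G.Adj v)

omit [DecidableEq V] in
theorem mem_nbI {I : Finset V} {v u : V} : u ∈ nbI G I v ↔ u ∈ I ∧ G.Adj v u := by
  simp [nbI]

theorem Bad.two_le {I Z : Finset V} (hI : MaxInd G I) {v : V} (h : Bad G I Z v) :
    2 ≤ (nbI G I v).card := by
  obtain ⟨u, hu, hvu⟩ := hI.dom h.1
  obtain ⟨x, hx1, hx2, hx3, -, -⟩ := h.2.2.2 u hu hvu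
  by_contra hc
  have h1 : (nbI G I v).card ≤ 1 := by omega
  rw [card_le_one] at h1
  have hpv : Priv G I u v := ⟨h.1, hvu, fun w hw hvw =>
    h1 w (mem_nbI.2 ⟨hw, hvw⟩) u (mem_nbI.2 ⟨hu, hvu⟩)⟩
  exact hx3 (priv_adj hI hu hx1 hpv hx2)

/-- The key structural lemma. -/
theorem lemA (hP : NoP6 G) {I Z : Finset V} (hI : MaxInd G I) {v z : V} (hv : Bad G I Z v)
    (hz : z ∈ Z) (hzI : z ∉ I) (h2 : 2 ≤ (nbI G I z).card) {w : V} (hwv : w ∈ nbI G I v)
    (hwz : w ∈ nbI G I z) : nbI G I v ⊆ nbI G I z := by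
  classical
  intro u hu
  by_contra huz
  rw [mem_nbI] at hu hwv hwz
  have huz' : ¬ G.Adj z u := fun h => huz (mem_nbI.2 ⟨hu.1, h⟩)
  obtain ⟨hvI, hvZ, hvz, hx⟩ := hv
  have hvz' := hvz z hz
  have hII := hI.1
  obtain ⟨x, ⟨hxI, hxu, hxp⟩, hxv, hxv', hxZ, hxz⟩ := hx u hu.1 hu.2
  have hne : ∀ y, G.Adj z y → y ≠ u := by
    rintro y hy rfl
    exact huz' hy
  -- first: every neighbour of z in I is a neighbour of v
  have hsub : ∀ y ∈ I, G.Adj z y → G.Adj v y := by
    intro y hy hzy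
    by_contra hvy
    exact hP x u v w z y hxu hu.2.symm hwv.2 hwz.2.symm hzy hxv'
      (fun h => hne w hwz.2 (hxp w hwv.1 h)) (hxz z hz) (fun h => hne y hzy (hxp y hy h))
      (hII u hu.1 w hwv.1) (fun h => huz' h.symm) (hII u hu.1 y hy) hvz' hvy (hII w hwv.1 y hy)
  have hx' : ∀ y : V, ∃ x', y ∈ I → G.Adj z y →
      (Priv G I y x' ∧ x' ≠ v ∧ ¬G.Adj x' v ∧ x' ∉ Z ∧ ∀ z ∈ Z, ¬G.Adj x' z) := by
    intro y
    by_cases hy : y ∈ I ∧ G.Adj z y
    · obtain ⟨x', hx'⟩ := hx y hy.1 (hsub y hy.1 hy.2)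
      exact ⟨x', fun _ _ => hx'⟩
    · exact ⟨y, fun h1 h2 => absurd ⟨h1, h2⟩ hy⟩
  choose ξ hξ using hx'
  -- x is not adjacent to any ξ y
  have hA : ∀ y ∈ I, G.Adj z y → ¬ G.Adj x (ξ y) := by
    intro y hy hzy hxy
    obtain ⟨y', hy', hyy'⟩ : ∃ y' ∈ nbI G I z, y' ≠ y := by
      by_contra hc
      push Not at hc
      have : (nbI G I z).card ≤ 1 := card_le_one.2 fun a ha b hb => by rw [hc a ha, hc b hb]
      omega
    rw [mem_nbI] at hy'
    obtain ⟨⟨-, -, hp⟩, -, h3, -, h5⟩ := hξ y hy hzy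
    exact hP z y' v u x (ξ y) hy'.2 (hsub y' hy'.1 hy'.2).symm hu.2 hxu.symm hxy
      (fun h => hvz' h.symm) huz' (fun h => hxz z hz h.symm) (fun h => h5 z hz h.symm)
      (hII y' hy'.1 u hu.1) (fun h => hne y' hy'.2 (hxp y' hy'.1 h.symm))
      (fun h => hyy' (hp y' hy'.1 h.symm)) (fun h => hxv' h.symm) (fun h => h3 h.symm)
      (fun h => hne y hzy (hp u hu.1 h.symm).symm)
  have hB : ∀ y ∈ I, G.Adj z y → ∀ y' ∈ I, G.Adj z y' → ¬ G.Adj (ξ y) (ξ y') := by
    intro y hy hzy y' hy' hzy' hyy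
    by_cases he : y = y'
    · subst he
      exact G.irrefl hyy
    obtain ⟨⟨-, h1, hp⟩, -, h3, -, -⟩ := hξ y hy hzy
    obtain ⟨⟨-, -, hp'⟩, -, h3', -, -⟩ := hξ y' hy' hzy'
    exact hP x u v y (ξ y) (ξ y') hxu hu.2.symm (hsub y hy hzy) h1.symm hyy hxv'
      (fun h => hne y hzy (hxp y hy h)) (hA y hy hzy) (hA y' hy' hzy') (hII u hu.1 y hy)
      (fun h => hne y hzy (hp u hu.1 h.symm).symm) (fun h => hne y' hzy' (hp' u hu.1 h.symm).symm)
      (fun h => h3 h.symm) (fun h => h3' h.symm) (fun h => he (hp' y hy h.symm))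
  have hinj : Set.InjOn ξ (nbI G I z) := by
    intro y hy y' hy' he
    rw [mem_coe, mem_nbI] at hy hy'
    obtain ⟨⟨-, h1, -⟩, -⟩ := hξ y hy.1 hy.2
    obtain ⟨⟨-, -, hp'⟩, -⟩ := hξ y' hy'.1 hy'.2
    exact hp' y hy.1 (he ▸ h1)
  have hzn : z ∉ (nbI G I z).image ξ := by
    intro h
    obtain ⟨y, hy, he⟩ := mem_image.1 h
    rw [mem_nbI] at hy
    exact (hξ y hy.1 hy.2).2.2.2.1 (he ▸ hz)
  have := exch_le (A := nbI G I z) (B := insert z ((nbI G I z).image ξ)) hI
    (fun y hy => (mem_nbI.1 hy).1)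
    (by
      intro b hb
      rcases mem_insert.1 hb with rfl | hb
      · exact hzI
      · obtain ⟨y, hy, rfl⟩ := mem_image.1 hb
        rw [mem_nbI] at hy
        exact (hξ y hy.1 hy.2).1.1)
    (by
      intro a ha b hb hab
      rcases mem_insert.1 ha with rfl | ha <;> rcases mem_insert.1 hb with rfl | hb
      · exact G.irrefl hab
      · obtain ⟨y, hy, rfl⟩ := mem_image.1 hb
        rw [mem_nbI] at hy
        exact (hξ y hy.1 hy.2).2.2.2.2 _ hz hab.symm
      · obtain ⟨y, hy, rfl⟩ := mem_image.1 ha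
        rw [mem_nbI] at hy
        exact (hξ y hy.1 hy.2).2.2.2.2 _ hz hab
      · obtain ⟨y, hy, rfl⟩ := mem_image.1 ha
        obtain ⟨y', hy', rfl⟩ := mem_image.1 hb
        rw [mem_nbI] at hy hy'
        exact hB y hy.1 hy.2 y' hy'.1 hy'.2 hab)
    (by
      intro b hb w hw hbw
      rcases mem_insert.1 hb with rfl | hb
      · exact mem_nbI.2 ⟨hw, hbw⟩
      · obtain ⟨y, hy, rfl⟩ := mem_image.1 hb
        have hy' := mem_nbI.1 hy
        rw [(hξ y hy'.1 hy'.2).1.2.2 w hw hbw]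
        exact hy)
  rw [card_insert_of_notMem hzn, card_image_of_injOn hinj] at this
  omega


/-- Two non-adjacent bad vertices with the same neighbourhood in `I`: the exchanged set. -/
theorem twin_exch {I Z : Finset V} (hI : MaxInd G I) {v z u : V} (hv : Bad G I (insert z Z) v)
    (hzI : z ∉ I) (he : nbI G I v = nbI G I z) (hu : u ∈ nbI G I v) :
    ∃ x, Priv G I u x ∧ x ∉ Z ∧ (∀ y ∈ Z, ¬ G.Adj x y) ∧ ({v, z, x} : Finset V).card = 3 ∧
      (∀ b ∈ ({v, z, x} : Finset V), b ∉ I) ∧ Ind G {v, z, x} ∧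
      (∀ b ∈ ({v, z, x} : Finset V), ∀ w ∈ I, G.Adj b w → w ∈ nbI G I v) := by
  obtain ⟨hvI, hvZ, hvz, hx⟩ := hv
  have hu' := mem_nbI.1 hu
  obtain ⟨x, hxp, hxv, hxv', hxZ, hxz⟩ := hx u hu'.1 hu'.2
  have h1 : v ≠ z := fun h => hvZ (h ▸ mem_insert_self _ _)
  have h2 : z ≠ x := fun h => hxZ (h ▸ mem_insert_self _ _)
  have h3 := hvz z (mem_insert_self _ _)
  have h4 := hxz z (mem_insert_self _ _)
  refine ⟨x, hxp, fun h => hxZ (mem_insert_of_mem h), fun y hy => hxz y (mem_insert_of_mem hy),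
    card_eq_three.2 ⟨v, z, x, h1, hxv.symm, h2, rfl⟩, ?_, ?_, ?_⟩
  · intro b hb
    simp only [mem_insert, mem_singleton] at hb
    rcases hb with rfl | rfl | rfl
    · exact hvI
    · exact hzI
    · exact hxp.1
  · intro a ha b hb hab
    simp only [mem_insert, mem_singleton] at ha hb
    rcases ha with rfl | rfl | rfl <;> rcases hb with rfl | rfl | rfl
    · exact G.irrefl hab
    · exact h3 hab
    · exact hxv' hab.symm
    · exact h3 hab.symm
    · exact G.irrefl hab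
    · exact h4 hab.symm
    · exact hxv' hab
    · exact h4 hab
    · exact G.irrefl hab
  · intro b hb w hw hbw
    simp only [mem_insert, mem_singleton] at hb
    rcases hb with rfl | rfl | rfl
    · exact mem_nbI.2 ⟨hw, hbw⟩
    · rw [he]
      exact mem_nbI.2 ⟨hw, hbw⟩
    · rw [hxp.2.2 w hw hbw]
      exact hu

theorem twin_three {I Z : Finset V} (hI : MaxInd G I) {v z : V} (hv : Bad G I (insert z Z) v)
    (hzI : z ∉ I) (he : nbI G I v = nbI G I z) : 3 ≤ (nbI G I v).card := by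
  have h2 := hv.two_le hI
  obtain ⟨u, hu⟩ : (nbI G I v).Nonempty := card_pos.1 (by omega)
  obtain ⟨x, -, -, -, hc, hd, hi, hn⟩ := twin_exch hI hv hzI he hu
  have := exch_le hI (fun y hy => (mem_nbI.1 hy).1) hd hi hn
  omega

/-- first-phase configurations -/
def Cfg (G : SimpleGraph V) [DecidableRel G.Adj] (I Z W : Finset V) : Prop :=
  MaxInd G I ∧ W ⊆ I ∧ (∀ z ∈ Z, z ∉ I) ∧ 2 * Z.card ≤ W.card ∧
    (∀ z ∈ Z, (nbI G I z).card = 2 ∧ nbI G I z ⊆ W) ∧ ∀ w ∈ W, ∃ z ∈ Z, G.Adj z w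

theorem Cfg.base (hP : NoP6 G) {I Z W : Finset V} (h : Cfg G I Z W) {v : V} (hv : Bad G I Z v) :
    Disjoint (nbI G I v) W := by
  obtain ⟨hI, hW, hZ, -, h2, h3⟩ := h
  rw [disjoint_left]
  intro w hwv hwW
  obtain ⟨z, hz, hzw⟩ := h3 w hwW
  have hs := lemA hP hI hv hz (hZ z hz) (h2 z hz).1.ge hwv (mem_nbI.2 ⟨hW hwW, hzw⟩)
  have h4 := hv.two_le hI
  have he : nbI G I v = nbI G I z := eq_of_subset_of_card_le hs (by rw [(h2 z hz).1]; exact h4)
  have hv' : Bad G I (insert z Z) v := by rwa [insert_eq_of_mem hz]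
  have := twin_three hI hv' (hZ z hz) he
  rw [he, (h2 z hz).1] at this
  omega

/-- the case of a block of size three gives a larger first-phase configuration -/
theorem Cfg.step {I Z₂ W₂ Z : Finset V} (h : Cfg G I Z₂ W₂) (hZ : Z₂ ⊆ Z) {v z : V}
    (hz : Bad G I Z z) (hv : Bad G I (insert z Z) v) (he : nbI G I v = nbI G I z)
    (h3 : (nbI G I v).card = 3) (hd : Disjoint (nbI G I v) W₂) :
    ∃ I' Z' W', Cfg G I' Z' W' ∧ Z₂.card < Z'.card := by
  obtain ⟨hI, hW, hZI, hc, h2, h4⟩ := h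
  obtain ⟨u₁, u₂, u₃, h12, -, -, hT⟩ := card_eq_three.1 h3
  have hu₁ : u₁ ∈ nbI G I v := by rw [hT]; simp
  have hu₂ : u₂ ∈ nbI G I v := by rw [hT]; simp
  obtain ⟨x, hxp, hxZ, hxz, hcard, hdis, hi, hn⟩ := twin_exch hI hv hz.1 he hu₁
  have hsub : nbI G I v ⊆ I := fun y hy => (mem_nbI.1 hy).1
  have hu₂I := hsub hu₂
  have hvu₂ : G.Adj v u₂ := (mem_nbI.1 hu₂).2
  have hzu₂ : G.Adj z u₂ := (mem_nbI.1 (he ▸ hu₂)).2
  have hvz : v ≠ z := fun h => hv.2.1 (h ▸ mem_insert_self _ _)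
  have hu₂Z : u₂ ∉ Z₂ := fun h => hZI _ h hu₂I
  have hvW : v ∉ W₂ := fun h => hv.1 (hW h)
  have hzW : z ∉ W₂ := fun h => hz.1 (hW h)
  have hsame : ∀ y ∈ Z₂, nbI G ((I \ nbI G I v) ∪ {v, z, x}) y = nbI G I y := by
    intro y hy
    ext w
    simp only [mem_nbI, mem_union, mem_sdiff, mem_insert, mem_singleton]
    constructor
    · rintro ⟨hw | rfl | rfl | rfl, hyw⟩
      · exact ⟨hw.1, hyw⟩
      · exact absurd hyw.symm (hv.2.2.1 y (mem_insert_of_mem (hZ hy)))
      · exact absurd hyw.symm (hz.2.2.1 y (hZ hy))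
      · exact absurd hyw.symm (hxz y (hZ hy))
    · rintro ⟨hw, hyw⟩
      refine ⟨Or.inl ⟨hw, fun h => ?_⟩, hyw⟩
      exact disjoint_left.1 hd (mem_nbI.2 h) ((h2 y hy).2 (mem_nbI.2 ⟨hw, hyw⟩))
  have hnew : nbI G ((I \ nbI G I v) ∪ {v, z, x}) u₂ = {v, z} := by
    ext w
    simp only [mem_nbI, mem_union, mem_sdiff, mem_insert, mem_singleton]
    constructor
    · rintro ⟨hw | rfl | rfl | rfl, hyw⟩
      · exact absurd hyw (hI.1 _ hu₂I _ hw.1)
      · exact Or.inl rfl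
      · exact Or.inr rfl
      · exact absurd (hxp.2.2 _ hu₂I hyw.symm).symm h12
    · rintro (rfl | rfl)
      · exact ⟨Or.inr (Or.inl rfl), hvu₂.symm⟩
      · exact ⟨Or.inr (Or.inr (Or.inl rfl)), hzu₂.symm⟩
  refine ⟨(I \ nbI G I v) ∪ {v, z, x}, insert u₂ Z₂, insert v (insert z W₂),
    ⟨⟨exch_ind hI.1 hi hn, fun J hJ => ?_⟩, ?_, ?_, ?_, ?_, ?_⟩, ?_⟩
  · have := exch_card hsub hdis
    have := hI.2 J hJ
    omega
  · intro w hw
    simp only [mem_insert] at hw
    rcases hw with rfl | rfl | hw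
    · simp
    · simp
    · exact mem_union_left _ (mem_sdiff.2 ⟨hW hw, fun h => disjoint_left.1 hd h hw⟩)
  · intro y hy hy'
    rw [mem_union, mem_sdiff] at hy'
    rcases mem_insert.1 hy with rfl | hy
    · rcases hy' with hy' | hy'
      · exact hy'.2 hu₂
      · exact hdis _ hy' hu₂I
    · rcases hy' with hy' | hy'
      · exact hZI y hy hy'.1
      · simp only [mem_insert, mem_singleton] at hy'
        rcases hy' with rfl | rfl | rfl
        · exact hv.2.1 (mem_insert_of_mem (hZ hy))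
        · exact hz.2.1 (hZ hy)
        · exact hxZ (hZ hy)
  · rw [card_insert_of_notMem hu₂Z, card_insert_of_notMem (by simp [hvz, hvW]),
      card_insert_of_notMem hzW]
    omega
  · intro y hy
    rcases mem_insert.1 hy with rfl | hy
    · rw [hnew]
      refine ⟨card_pair hvz, ?_⟩
      intro w hw
      simp only [mem_insert, mem_singleton] at hw ⊢
      tauto
    · rw [hsame y hy]
      exact ⟨(h2 y hy).1, fun w hw => mem_insert_of_mem (mem_insert_of_mem ((h2 y hy).2 hw))⟩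
  · intro w hw
    simp only [mem_insert] at hw
    rcases hw with rfl | rfl | hw
    · exact ⟨u₂, mem_insert_self _ _, hvu₂.symm⟩
    · exact ⟨u₂, mem_insert_self _ _, hzu₂.symm⟩
    · obtain ⟨y, hy, hyw⟩ := h4 w hw
      exact ⟨y, mem_insert_of_mem hy, hyw⟩
  · rw [card_insert_of_notMem hu₂Z]
    omega

/-- the second phase -/
theorem phase2 [Fintype V] (hP : NoP6 G) {I Z₂ W₂ : Finset V} (h : Cfg G I Z₂ W₂)
    (hmax : ∀ I' Z' W', Cfg G I' Z' W' → Z'.card ≤ Z₂.card) (n : ℕ) :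
    ∀ Z W : Finset V, (I \ W).card ≤ n → Z₂ ⊆ Z → W₂ ⊆ W → W ⊆ I → (∀ z ∈ Z, z ∉ I) →
      2 * Z.card ≤ W.card → (∀ v, Bad G I Z v → Disjoint (nbI G I v) W) →
      ∃ Z' : Finset V, (∀ z ∈ Z', z ∉ I) ∧ 2 * Z'.card ≤ I.card ∧ ∀ v, ¬ Bad G I Z' v := by
  classical
  have hI := h.1
  induction n with
  | zero =>
    intro Z W hn _ _ hW hZ hc hb
    refine ⟨Z, hZ, hc.trans (card_le_card hW), fun v hv => ?_⟩
    have h2 := hv.two_le hI
    obtain ⟨u, hu⟩ : (nbI G I v).Nonempty := card_pos.1 (by omega)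
    have : u ∈ I \ W := mem_sdiff.2 ⟨(mem_nbI.1 hu).1, disjoint_left.1 (hb v hv) hu⟩
    have := card_pos.2 ⟨u, this⟩
    omega
  | succ n ih =>
    intro Z W hn hZ₂ hW₂ hW hZ hc hb
    by_cases hno : ∀ v, ¬ Bad G I Z v
    · exact ⟨Z, hZ, hc.trans (card_le_card hW), hno⟩
    push Not at hno
    obtain ⟨z, hz, hmin⟩ := exists_min_image (univ.filter (Bad G I Z)) (fun v => (nbI G I v).card)
      (by obtain ⟨v, hv⟩ := hno; exact ⟨v, by simpa using hv⟩)
    have hz : Bad G I Z z := by simpa using hz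
    have hmin : ∀ v, Bad G I Z v → (nbI G I z).card ≤ (nbI G I v).card :=
      fun v hv => hmin v (by simpa using hv)
    have h2 := hz.two_le hI
    have hd := hb z hz
    have hsub : nbI G I z ⊆ I := fun y hy => (mem_nbI.1 hy).1
    have hcW : (W ∪ nbI G I z).card = W.card + (nbI G I z).card :=
      card_union_of_disjoint hd.symm
    have hW' : W ∪ nbI G I z ⊆ I := union_subset hW hsub
    have hn' : (I \ (W ∪ nbI G I z)).card ≤ n := by
      rw [card_sdiff_of_subset hW'] 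
      rw [card_sdiff_of_subset hW] at hn
      omega
    have hkey : ∀ v, Bad G I (insert z Z) v → ¬ Disjoint (nbI G I v) (W ∪ nbI G I z) →
        nbI G I v = nbI G I z := by
      intro v hv hnd
      have hv0 := hv.mono (subset_insert _ _)
      rw [not_disjoint_iff] at hnd
      obtain ⟨w, hwv, hw⟩ := hnd
      rcases mem_union.1 hw with hw | hw
      · exact absurd hw (disjoint_left.1 (hb v hv0) hwv)
      · exact eq_of_subset_of_card_le (lemA hP hI hv (mem_insert_self _ _) hz.1 h2 hwv hw)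
          (hmin v hv0)
    have hZ' : ∀ y ∈ insert z Z, y ∉ I := by
      intro y hy
      rcases mem_insert.1 hy with rfl | hy
      · exact hz.1
      · exact hZ y hy
    by_cases hall : ∀ v, Bad G I (insert z Z) v → Disjoint (nbI G I v) (W ∪ nbI G I z)
    · refine ih (insert z Z) (W ∪ nbI G I z) hn' (hZ₂.trans (subset_insert _ _))
        (hW₂.trans subset_union_left) hW' hZ' ?_ hall
      rw [card_insert_of_notMem hz.2.1]
      omega
    push Not at hall
    obtain ⟨v, hv, hnd⟩ := hall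
    have he := hkey v hv hnd
    have h3 := twin_three hI hv hz.1 he
    have h4 : (nbI G I v).card ≠ 3 := by
      intro h3'
      obtain ⟨I', Z', W', hc', hlt⟩ := h.step hZ₂ hz hv he h3'
        (disjoint_of_subset_right hW₂ (he ▸ hd))
      have := hmax _ _ _ hc'
      omega
    obtain ⟨u, hu⟩ : (nbI G I v).Nonempty := card_pos.1 (by omega)
    have hu' := mem_nbI.1 hu
    obtain ⟨x, hxp, -, -, hxZ, -⟩ := hv.2.2.2 u hu'.1 hu'.2
    refine ih (insert x (insert z Z)) (W ∪ nbI G I z) hn'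
      (hZ₂.trans ((subset_insert _ _).trans (subset_insert _ _)))
      (hW₂.trans subset_union_left) hW' ?_ ?_ ?_
    · intro y hy
      rcases mem_insert.1 hy with rfl | hy
      · exact hxp.1
      · exact hZ' y hy
    · rw [card_insert_of_notMem hxZ, card_insert_of_notMem hz.2.1]
      rw [he] at h3 h4
      omega
    · intro y hy
      by_contra hnd'
      have he' := hkey y (hy.mono (subset_insert _ _)) hnd'
      have huy : u ∈ nbI G I y := by rw [he', ← he]; exact hu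
      obtain ⟨x', hxp', -, -, hxZ', hxa⟩ := hy.2.2.2 u hu'.1 (mem_nbI.1 huy).2
      exact hxa x (mem_insert_self _ _)
        (priv_adj hI hu'.1 hxp' hxp (fun h => hxZ' (h ▸ mem_insert_self _ _)))

end

theorem upper [Fintype V] (G : SimpleGraph V)
    (h : ¬ (SimpleGraph.pathGraph 6).IsIndContained G) : 2 * secDomNum G ≤ 3 * G.indepNum := by
  classical
  have hP := noP6_of h
  obtain ⟨I₀, hI₀⟩ := G.maximumIndepSet_exists
  have hind : ∀ J : Finset V, Ind G J ↔ G.IsIndepSet (J : Set V) := by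
    intro J
    constructor
    · intro hJ x hx y hy _
      exact hJ x hx y hy
    · intro hJ x hx y hy hxy
      exact hJ hx hy hxy.ne hxy
  have hI₀' : MaxInd G I₀ := ⟨(hind _).2 hI₀.1, fun J hJ => hI₀.2 J ((hind _).1 hJ)⟩
  have hc₀ : Cfg G I₀ ∅ ∅ := ⟨hI₀', empty_subset _, by simp, by simp, by simp, by simp⟩
  obtain ⟨p, hp, hmax⟩ := exists_max_image
    ((univ : Finset (Finset V × Finset V × Finset V)).filter fun p => Cfg G p.1 p.2.1 p.2.2)
    (fun p => p.2.1.card) ⟨(I₀, ∅, ∅), by simpa using hc₀⟩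
  obtain ⟨I, Z₂, W₂⟩ := p
  have hp : Cfg G I Z₂ W₂ := by simpa using hp
  obtain ⟨Z, hZ, hc, hb⟩ := phase2 hP hp (fun I' Z' W' h' => hmax (I', Z', W') (by simpa using h'))
    _ Z₂ W₂ le_rfl subset_rfl subset_rfl hp.2.1 hp.2.2.1 hp.2.2.2.1 (fun v hv => hp.base hP hv)
  have hs := secure_of_noBad hp.1 hZ hb
  have h1 : secDomNum G ≤ (I ∪ Z).card := Nat.sInf_le ⟨I ∪ Z, hs, rfl⟩
  have h2 := card_union_le I Z
  have h3 : I.card ≤ G.indepNum := ((hind _).1 hp.1.1).card_le_indepNum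
  omega

end Pool.Agent.Lib.MP_82f784_co
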